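import Pool.Agent.Lib.MP_ba489c_co.Three

/-!
Characterisation of the 2-connected signed graphs with property (PP).
-/

set_option autoImplicit false

namespace Pool.Agent.Results.MP_ba489c_co.PairTheorem

open Pool.Agent.Lib.MP_ba489c_co

/-- Let `Γ` be 2-connected. The following are equivalent: (1) every two distinct edges lie in a
common positive circle; (2) there are no distinct edges `e, f` which lie in a common negative
circle and for which `H(e,f)` has a balanced chain of 2-separations between `e` and `f`;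
(3) whenever distinct edges `e, f` lie in a common negative circle, `H(e,f)` has a negative circle
that is split by no 2-separation of `H(e,f)` between `e` and `f`. -/
theorem result : ∀ (V : Type) [Fintype V] [DecidableEq V] (Γ : SimpleGraph V) (σ : Sym2 V → ℤˣ),
    TwoConnected Γ →
    List.TFAE [
      PP Γ σ,
      ∀ e ∈ Γ.edgeSet, ∀ f ∈ Γ.edgeSet, e ≠ f →
        (∃ (v : V) (c : Γ.Walk v v), c.IsCycle ∧ e ∈ c.edges ∧ f ∈ c.edges ∧ sgn σ c = -1) →
        ¬ ∃ (n : ℕ) (X Y : ℕ → Finset V), IsBalancedChain (hull Γ e f) σ e f n X Y,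
      ∀ e ∈ Γ.edgeSet, ∀ f ∈ Γ.edgeSet, e ≠ f →
        (∃ (v : V) (c : Γ.Walk v v), c.IsCycle ∧ e ∈ c.edges ∧ f ∈ c.edges ∧ sgn σ c = -1) →
        ∃ (v : V) (c : (hull Γ e f).Walk v v), c.IsCycle ∧ sgn σ c = -1 ∧
          ¬ ∃ X Y : Finset V, IsSep (hull Γ e f) e f X Y ∧ IsSplit c X Y] := by
  intro V _ _ Γ σ h2
  have hne : ∀ x : ℤˣ, x ≠ 1 ↔ x = -1 := by decide
  have hpm : (1 : ℤˣ) ≠ -1 := by decide
  tfae_have 1 → 3 := by
    rintro hPP e he f hf hef ⟨v, c, hc, hce, hcf, hs⟩
    obtain ⟨v', c', hc', hce', hcf', hs'⟩ := hPP e he f hf hef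
    by_contra hcon
    push Not at hcon
    have h := same_of_split (σ := σ) he hf hef (fun w k hk hks => hcon w k hk ((hne _).1 hks))
      hc hce hcf hc' hce' hcf'
    rw [hs, hs'] at h
    exact hpm h.symm
  tfae_have 3 → 2 := by
    rintro h3 e he f hf hef hneg ⟨n, X, Y, hch⟩
    obtain ⟨v, c, hc, hs, hno⟩ := h3 e he f hf hef hneg
    exact hno (split_of_chain hch c hc ((hne _).2 hs))
  tfae_have 2 → 1 := by
    intro h2' e he f hf hef
    by_contra hcon
    push Not at hcon
    have hall : ∀ (v : V) (c : Γ.Walk v v), c.IsCycle → e ∈ c.edges → f ∈ c.edges →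
        sgn σ c = -1 := fun v c hc hce hcf => (hne _).1 (hcon v c hc hce hcf)
    obtain ⟨v, c, hc, hce, hcf⟩ := h2.kc.whitney he hf hef
    exact h2' e he f hf hef ⟨v, c, hc, hce, hcf, hall v c hc hce hcf⟩
      (chain_of_same (by have := h2.1; omega) he hf hef ⟨v, c, hc, hce, hcf⟩ hall)
  tfae_finish

end Pool.Agent.Results.MP_ba489c_co.PairTheorem
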