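import Pool.Agent.Lib.MP_ba489c_co.Three

/-!
Characterisation of the 3-connected signed graphs with property (PP).
-/

set_option autoImplicit false

namespace Pool.Agent.Results.MP_ba489c_co.ThreeConn

open Pool.Agent.Lib.MP_ba489c_co

/-- A 3-connected signed graph has property (PP) if and only if it is balanced or has no balancing
vertex. -/
theorem result : ∀ (V : Type) [Fintype V] [DecidableEq V] (Γ : SimpleGraph V) (σ : Sym2 V → ℤˣ),
    ThreeConnected Γ →
    (PP Γ σ ↔ Balanced Γ σ ∨ ¬ ∃ x : V, BalancedWithout Γ σ x) := by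
  intro V _ _ Γ σ h3
  exact pp_iff_three h3

end Pool.Agent.Results.MP_ba489c_co.ThreeConn
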